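import Pool.Agent.Y518.BS.Indef
import Pool.Agent.Helper41.BS.ExistBM

set_option autoImplicit false

/-!
# A continuum of solutions of the indefinite quadratic BSDE with generator `|z¹|² - |z²|²`

For every probability space with a two-dimensional Brownian motion, every `T > 0` and every interval
`[a, b]` there is a terminal value `ξ` with all exponential moments such that for every `c ∈ [a, b]`
the BSDE with generator `|z¹|² - |z²|²` and terminal value `ξ` has a solution with `Y_0 = c`, for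
which `exp (μ |Y|)` is of class (D) for every `μ > 0`.

Idea (as for two solutions, in the library `Helper807.BS`): cut `[0,T)` into intervals accumulating
at `T`. On the intervals with even number only `B¹` is used and `exp (2 Y)` is a martingale, on
those with odd number only `B²` is used and `exp (-2 Y)` is a martingale. At the end of each
interval either `Y` is frozen at a value which depends on the number of the interval only or the
game goes on. Here the frozen values are chosen such that a whole interval of initial values is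
compatible with them.
-/

namespace Pool.Agent.Results.MP_a80562_pr.EveryInitialValue

open MeasureTheory ProbabilityTheory Set Filter Pool.Agent.Helper807.BS
open scoped NNReal ENNReal Topology

universe u

theorem main (Ω : Type u) [MeasurableSpace Ω] (P : Measure Ω) [IsProbabilityMeasure P]
    (B : Fin 2 → ℝ≥0 → Ω → ℝ) (hB : IsBM2 B P) (T : ℝ) (hT : 0 < T) (a b : ℝ) :
    ∃ ξ : Ω → ℝ, Measurable[Fil B P T, borel ℝ] ξ ∧
      (∀ μ : ℝ, 0 < μ → Integrable (fun ω => Real.exp (μ * |ξ ω|)) P) ∧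
      ∀ c ∈ Icc a b, ∃ (Y : ℝ → Ω → ℝ) (Z : Fin 2 → ℝ → Ω → ℝ),
        IsSol T P B (fun z => |z 0| ^ 2 - |z 1| ^ 2) ξ Y Z ∧
        (∀ μ : ℝ, 0 < μ → ClassD T P (Fil B P) (fun t ω => Real.exp (μ * |Y t ω|))) ∧
        ∀ ω, Y 0 ω = c := by
  have hg : (fun z : Fin 2 → ℝ => ∑ i, (![2, -2] : Fin 2 → ℝ) i / 2 * (z i) ^ 2) =
      fun z => |z 0| ^ 2 - |z 1| ^ 2 := by
    funext z
    simp [Fin.sum_univ_two]
    ring
  obtain ⟨idx, v, H1⟩ := Pool.Agent.Y518.BS.indef_family a (max a b)
  obtain ⟨ξ, hξ, H⟩ := engine P B hB T hT idx (![2, -2] : Fin 2 → ℝ) v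
  refine ⟨ξ, hξ, ?_, ?_⟩
  · intro μ hμ
    obtain ⟨w, hw0, hw1, hw2⟩ := H1 a le_rfl (le_max_left _ _)
    obtain ⟨Y, Z, hs, hY0, hD⟩ := H w hw1
    exact (hD μ hμ (hw2 μ hμ)).2
  · intro c hc
    obtain ⟨w, hw0, hw1, hw2⟩ := H1 c hc.1 (hc.2.trans (le_max_right _ _))
    obtain ⟨Y, Z, hs, hY0, hD⟩ := H w hw1
    rw [hg] at hs
    exact ⟨Y, Z, hs, fun μ hμ => (hD μ hμ (hw2 μ hμ)).1, fun ω => by rw [hY0, hw0]⟩

/-- Some complete probability space carries a two-dimensional Brownian motion. For every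
probability space with a two-dimensional Brownian motion, every `T > 0` and all real `a < b` there
is a terminal value `ξ` with all exponential moments such that for every `c ∈ [a, b]` the BSDE with
generator `|z¹|² - |z²|²` has a solution with `Y_0 = c`, for which `exp (μ |Y|)` is of class (D)
for every `μ > 0`. -/
theorem result :
    (∃ (Ω : Type) (_ : MeasurableSpace Ω) (P : Measure Ω), IsProbabilityMeasure P ∧
      P.IsComplete ∧ ∃ B : Fin 2 → ℝ≥0 → Ω → ℝ, IsBM2 B P) ∧
    ∀ (Ω : Type u) (_ : MeasurableSpace Ω) (P : Measure Ω) (_ : IsProbabilityMeasure P)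
      (B : Fin 2 → ℝ≥0 → Ω → ℝ), IsBM2 B P → ∀ T : ℝ, 0 < T → ∀ a b : ℝ, a < b →
      ∃ ξ : Ω → ℝ, Measurable[Fil B P T, borel ℝ] ξ ∧
        (∀ μ : ℝ, 0 < μ → Integrable (fun ω => Real.exp (μ * |ξ ω|)) P) ∧
        ∀ c ∈ Icc a b, ∃ (Y : ℝ → Ω → ℝ) (Z : Fin 2 → ℝ → Ω → ℝ),
          IsSol T P B (fun z => |z 0| ^ 2 - |z 1| ^ 2) ξ Y Z ∧
          (∀ μ : ℝ, 0 < μ → ClassD T P (Fil B P) (fun t ω => Real.exp (μ * |Y t ω|))) ∧
          ∀ ω, Y 0 ω = c :=
  ⟨Pool.Agent.Helper41.BS.exists_bm2, fun Ω _ P _ B hB T hT a b _ => main Ω P B hB T hT a b⟩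

end Pool.Agent.Results.MP_a80562_pr.EveryInitialValue
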